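import Pool.Agent.H369.AS.Stm

/-! # Project CK (helper369), part AS: symmetrisation and coefficients -/

set_option autoImplicit false

namespace Pool.Agent.H597.AS

open TensorProduct Pool.Agent.TH549.CK Pool.Agent.H369.TH Pool.Agent.H369.CFG Pool.Agent.H369.SM
open Pool.Agent.H369.PL Pool.Agent.H369.RE Pool.Agent.H369.CB Pool.Agent.H369.AS

theorem exists_dual {k M : Type} [Field k] [AddCommGroup M] [Module k M] {d : ℕ} (f : Fin d → M)
    (hf : LinearIndependent k f) (b₀ : Fin d) :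
    ∃ φ : M →ₗ[k] k, ∀ b, φ (f b) = if b = b₀ then 1 else 0 := by
  classical
  obtain ⟨φ, hφ⟩ := LinearMap.exists_extend
    ((Finsupp.lapply b₀ : (Fin d →₀ k) →ₗ[k] k) ∘ₗ hf.repr)
  refine ⟨φ, fun b => ?_⟩
  have h1 : φ (f b) = (φ ∘ₗ (Submodule.span k (Set.range f)).subtype)
    ⟨f b, Submodule.subset_span ⟨b, rfl⟩⟩ := rfl
  rw [h1, hφ]
  have h2 : hf.repr ⟨f b, Submodule.subset_span ⟨b, rfl⟩⟩ = Finsupp.single b 1 :=
    hf.repr_eq_single b _ rfl
  show (hf.repr ⟨f b, Submodule.subset_span ⟨b, rfl⟩⟩) b₀ = _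
  rw [h2, Finsupp.single_apply]

section
variable {Γ K : Type} [AddCommGroup Γ] [LinearOrder Γ] [IsOrderedAddMonoid Γ] [Field K]

theorem tt_tmul' (x y : Pt Γ K) (a b : ℕ) (f h : Ent Γ K) :
    tt x y a b (f ⊗ₜ[HG Γ K] h) = PowerSeries.coeff a (T x f) * PowerSeries.coeff b (T y h) := by
  have h1 : tt x y a b (f ⊗ₜ[HG Γ K] h) = Tl x a f * Tl y b h := by simp [tt]
  exact h1

/-- a bilinear functional -/
noncomputable def bil (φ ψ : Ent Γ K →ₗ[HG Γ K] HG Γ K) :
    Ent Γ K ⊗[HG Γ K] Ent Γ K →ₗ[HG Γ K] HG Γ K :=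
  LinearMap.mul' (HG Γ K) (HG Γ K) ∘ₗ TensorProduct.map φ ψ

theorem bil_tmul (φ ψ : Ent Γ K →ₗ[HG Γ K] HG Γ K) (f h : Ent Γ K) :
    bil φ ψ (f ⊗ₜ[HG Γ K] h) = φ f * ψ h := by
  simp [bil]

/-- the coefficient of `δ^A ε^s` -/
noncomputable def dc (A s : ℕ) (c : BB (HG Γ K)) : HG Γ K :=
  PowerSeries.coeff s (PowerSeries.coeff A c)

theorem dc_add (A s : ℕ) (c c' : BB (HG Γ K)) : dc A s (c + c') = dc A s c + dc A s c' := by
  unfold dc
  rw [map_add, map_add]

theorem dc_sum {ι : Type} (S : Finset ι) (A s : ℕ) (c : ι → BB (HG Γ K)) :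
    dc A s (∑ i ∈ S, c i) = ∑ i ∈ S, dc A s (c i) := by
  unfold dc
  rw [map_sum, map_sum]

theorem dc_mul_C (A s : ℕ) (c : BB (HG Γ K)) (z : HG Γ K) :
    dc A s (c * PowerSeries.C (PowerSeries.C z)) = dc A s c * z := by
  unfold dc
  rw [PowerSeries.coeff_mul_C, PowerSeries.coeff_mul_C]

theorem dc_C_mul (A s : ℕ) (c : BB (HG Γ K)) (z : HG Γ K) :
    dc A s (PowerSeries.C (PowerSeries.C z) * c) = z * dc A s c := by
  unfold dc
  rw [PowerSeries.coeff_C_mul, PowerSeries.coeff_C_mul]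

theorem dc_zero (A s : ℕ) : dc A s (0 : BB (HG Γ K)) = 0 := by
  unfold dc
  rw [map_zero, map_zero]

theorem dc_ext {c : BB (HG Γ K)} (h : ∀ A s, dc A s c = 0) : c = 0 := by
  apply PowerSeries.ext
  intro A
  apply PowerSeries.ext
  intro s
  rw [map_zero, map_zero]
  exact h A s

/-- symmetrisation -/
noncomputable def sy {d : ℕ} (κ : HG Γ K) (c : Fin d → Fin d → BB (HG Γ K)) (a b : Fin d) :
    BB (HG Γ K) :=
  c a b + PowerSeries.C (PowerSeries.C κ) * c b a

/-- the section with the coefficients `sy κ c` -/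
noncomputable def GG {d : ℕ} (κ : HG Γ K) (c : Fin d → Fin d → BB (HG Γ K)) (f : Fin d → Ent Γ K)
    (A s : ℕ) : Ent Γ K ⊗[HG Γ K] Ent Γ K :=
  ∑ a, ∑ b, dc A s (sy κ c a b) • (f a ⊗ₜ[HG Γ K] f b)

theorem dc_sy {d : ℕ} (κ : HG Γ K) (c : Fin d → Fin d → BB (HG Γ K)) (a b : Fin d) (A s : ℕ) :
    dc A s (sy κ c a b) = dc A s (c a b) + κ * dc A s (c b a) := by
  unfold sy
  rw [dc_add, dc_C_mul]

theorem exists_kappa [CharZero K] {d : ℕ} (c : Fin d → Fin d → BB (HG Γ K))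
    (hc : ∃ a b, c a b ≠ 0) :
    ∃ κ : HG Γ K, κ * κ = 1 ∧ ∃ a b, sy κ c a b ≠ 0 := by
  by_contra hcon
  push Not at hcon
  obtain ⟨a, b, hab⟩ := hc
  apply hab
  apply dc_ext
  intro A s
  have h1 : sy (1 : HG Γ K) c a b = 0 := hcon 1 (one_mul 1) a b
  have h2 : sy (-1 : HG Γ K) c a b = 0 := hcon (-1) (by ring) a b
  have h3 : dc A s (c a b) + 1 * dc A s (c b a) = 0 := by rw [← dc_sy, h1, dc_zero]
  have h4 : dc A s (c a b) + (-1) * dc A s (c b a) = 0 := by rw [← dc_sy, h2, dc_zero]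
  have h5 : dc A s (c a b) + dc A s (c a b) = 0 := by linear_combination h3 + h4
  ext g
  have h6 : (dc A s (c a b)).coeff g + (dc A s (c a b)).coeff g = 0 := by
    rw [← HahnSeries.coeff_add, h5, HahnSeries.coeff_zero]
  rw [HahnSeries.coeff_zero]
  exact self_eq_neg.1 (eq_neg_of_add_eq_zero_left h6)

theorem GG_mem {d n : ℕ} {P : Γ} {o : Pt Γ K} {f : Fin d → Ent Γ K}
    (hf : ∀ a, f a ∈ Th P n (ng o ^ n)) (κ : HG Γ K) (c : Fin d → Fin d → BB (HG Γ K)) (A s : ℕ) :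
    InVV P n (ng o ^ n) (GG κ c f A s) := by
  unfold InVV GG
  refine Submodule.sum_mem _ fun a _ => Submodule.sum_mem _ fun b _ => Submodule.smul_mem _ _ ?_
  exact ⟨(⟨f a, hf a⟩ : Th P n (ng o ^ n)) ⊗ₜ (⟨f b, hf b⟩ : Th P n (ng o ^ n)), rfl⟩

theorem GG_sym {d : ℕ} (κ : HG Γ K) (hκ : κ * κ = 1) (c : Fin d → Fin d → BB (HG Γ K))
    (f : Fin d → Ent Γ K) (A s : ℕ) :
    TensorProduct.comm (HG Γ K) (Ent Γ K) (Ent Γ K) (GG κ c f A s) = κ • GG κ c f A s := by
  unfold GG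
  rw [map_sum, Finset.smul_sum]
  simp only [map_sum, map_smul, TensorProduct.comm_tmul, Finset.smul_sum, smul_smul]
  rw [Finset.sum_comm]
  refine Finset.sum_congr rfl fun a _ => Finset.sum_congr rfl fun b _ => ?_
  congr 1
  rw [dc_sy, dc_sy]
  linear_combination -(dc A s (c b a)) * hκ

theorem GG_ne {d : ℕ} {f : Fin d → Ent Γ K} (hf : LinearIndependent (HG Γ K) f) (κ : HG Γ K)
    (c : Fin d → Fin d → BB (HG Γ K)) (hc : ∃ a b, sy κ c a b ≠ 0) :
    ∃ A s, GG κ c f A s ≠ 0 := by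
  obtain ⟨a₀, b₀, hab⟩ := hc
  by_contra hcon
  push Not at hcon
  apply hab
  apply dc_ext
  intro A s
  obtain ⟨φ, hφ⟩ := exists_dual f hf a₀
  obtain ⟨ψ, hψ⟩ := exists_dual f hf b₀
  have h1 := congrArg (bil φ ψ) (hcon A s)
  unfold GG at h1
  simp only [map_sum, map_smul, bil_tmul, map_zero, smul_eq_mul] at h1
  rw [Finset.sum_eq_single a₀, Finset.sum_eq_single b₀, hφ, hψ, if_pos rfl, if_pos rfl, mul_one,
    mul_one] at h1
  · exact h1
  · intro b _ hb
    rw [hψ, if_neg hb, mul_zero, mul_zero]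
  · intro h
    exact absurd (Finset.mem_univ _) h
  · intro a _ ha
    refine Finset.sum_eq_zero fun b _ => ?_
    rw [hφ, if_neg ha, zero_mul, mul_zero]
  · intro h
    exact absurd (Finset.mem_univ _) h

end

theorem conv (h1 : S_rules) (h2 : S_leib) (h3 : S_dia) (h4 : S_nod) : S_conv := by
  have _ := h1
  intro Γ K _ _ _ _ _ τ A m ξ y n γ d f hf h hFr P hP Q hQ c hc E1 E2 E3
  obtain ⟨κ, hκ, hne⟩ := exists_kappa c hc
  refine ⟨κ, GG κ c f, hκ, ⟨GG_mem (fun a => (hFr a).1) κ c, GG_sym κ hκ c f, ?_, ?_⟩,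
    GG_ne hf κ c hne⟩
  · -- the diagonal
    intro D s l hl
    refine h3 Γ K A.P A.big A.o n d γ f h hFr (fun a b => dc D s (sy κ c a b)) ?_ l hl
    have e1 : ∀ j < γ, ∑ a, ∑ b, HahnSeries.C (dc D s (c a b)) *
        LaurentSeries.hasseDeriv (HG Γ K) j (h a) * h b = 0 := by
      intro j hj
      apply HahnSeries.ext
      funext l'
      have h5 := congrArg (dc D s) (E1 j hj l')
      rw [dc_zero, dc_sum] at h5
      rw [HahnSeries.coeff_sum, HahnSeries.coeff_zero, ← h5]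
      refine Finset.sum_congr rfl fun a _ => ?_
      rw [HahnSeries.coeff_sum, dc_sum]
      refine Finset.sum_congr rfl fun b _ => ?_
      rw [dc_mul_C, mul_assoc, HahnSeries.C_mul_eq_smul, HahnSeries.coeff_smul, smul_eq_mul]
    have e2 := h2 (HG Γ K) d γ h (fun a b => dc D s (c a b)) e1
    intro j hj
    have e3 := e1 j hj
    have e4 := e2 j hj
    have e5 : ∑ a, ∑ b, HahnSeries.C (dc D s (sy κ c a b)) *
        LaurentSeries.hasseDeriv (HG Γ K) j (h a) * h b =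
        (∑ a, ∑ b, HahnSeries.C (dc D s (c a b)) *
          LaurentSeries.hasseDeriv (HG Γ K) j (h a) * h b) +
        HahnSeries.C κ * ∑ a, ∑ b, HahnSeries.C (dc D s (c b a)) *
          LaurentSeries.hasseDeriv (HG Γ K) j (h a) * h b := by
      rw [Finset.mul_sum, ← Finset.sum_add_distrib]
      refine Finset.sum_congr rfl fun a _ => ?_
      rw [Finset.mul_sum, ← Finset.sum_add_distrib]
      refine Finset.sum_congr rfl fun b _ => ?_
      rw [dc_sy, map_add, map_mul]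
      ring
    rw [e5, e3, e4, mul_zero, add_zero]
  · -- the nodes
    intro i a' b' N hab
    have e1 := h4 (HG Γ K) d γ (A.ze ξ y i) (T (A.p ξ i) (theta A.P A.o) ^ n)
      (T A.x (theta A.P A.o) ^ n) (P i) Q c (E2 i) a' b' N hab
    have e2 := h4 (HG Γ K) d γ (A.ze ξ y i) (T (A.p ξ i) (theta A.P A.o) ^ n)
      (T A.x (theta A.P A.o) ^ n) (P i) Q (fun a b => c b a) (fun a b hab => by
        have h5 := E3 i a b hab
        rw [Finset.sum_comm] at h5
        exact h5) a' b' N hab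
    have key : ∀ l D, PowerSeries.mk (fun s => tt (A.p ξ i) A.x a' l (GG κ c f D s)) =
        (∑ a, ∑ b, PowerSeries.coeff D (c a b) *
          PowerSeries.C (PowerSeries.coeff a' (P i a * T (A.p ξ i) (theta A.P A.o) ^ n) *
            PowerSeries.coeff l (Q b * T A.x (theta A.P A.o) ^ n))) +
        PowerSeries.C κ * ∑ a, ∑ b, PowerSeries.coeff D (c b a) *
          PowerSeries.C (PowerSeries.coeff a' (P i a * T (A.p ξ i) (theta A.P A.o) ^ n) *
            PowerSeries.coeff l (Q b * T A.x (theta A.P A.o) ^ n)) := by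
      intro l D
      apply PowerSeries.ext
      intro s
      rw [PowerSeries.coeff_mk, map_add, PowerSeries.coeff_C_mul, map_sum, map_sum, Finset.mul_sum,
        ← Finset.sum_add_distrib]
      unfold GG
      rw [map_sum]
      refine Finset.sum_congr rfl fun a _ => ?_
      rw [map_sum, map_sum, map_sum, Finset.mul_sum, ← Finset.sum_add_distrib]
      refine Finset.sum_congr rfl fun b _ => ?_
      rw [map_smul, tt_tmul', smul_eq_mul, dc_sy, PowerSeries.coeff_mul_C, PowerSeries.coeff_mul_C,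
        hP i a, hQ b]
      unfold dc
      ring
    have e3 : ∀ l ∈ Finset.range (N + 1), (l.choose b' : PowerSeries (HG Γ K)) *
        A.ze ξ y i ^ (l - b') * PowerSeries.mk (fun b => tt (A.p ξ i) A.x a' l (GG κ c f (N - l) b)) =
        (l.choose b' : PowerSeries (HG Γ K)) * A.ze ξ y i ^ (l - b') *
          (∑ a, ∑ b, PowerSeries.coeff (N - l) (c a b) *
          PowerSeries.C (PowerSeries.coeff a' (P i a * T (A.p ξ i) (theta A.P A.o) ^ n) *
            PowerSeries.coeff l (Q b * T A.x (theta A.P A.o) ^ n))) +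
        PowerSeries.C κ * ((l.choose b' : PowerSeries (HG Γ K)) * A.ze ξ y i ^ (l - b') *
          ∑ a, ∑ b, PowerSeries.coeff (N - l) (c b a) *
          PowerSeries.C (PowerSeries.coeff a' (P i a * T (A.p ξ i) (theta A.P A.o) ^ n) *
            PowerSeries.coeff l (Q b * T A.x (theta A.P A.o) ^ n))) := by
      intro l _
      rw [key]
      ring
    rw [Finset.sum_congr rfl e3, Finset.sum_add_distrib, ← Finset.mul_sum, e1, e2, mul_zero,
      add_zero]

end Pool.Agent.H597.AS
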